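import Pool.Agent.H635.RF.Fin

/-!
# A model of (R) in which the reals of some `L[a]` are not dominated

The measurability of all `Σ¹₂` sets is equivalent to the conjunction of (R) and of the statement
that for every real `a` the reals of `L[a]` are dominated by a real. The theorem gives a model of
ZFC in which (R) holds and the reals of some `L[a]` are not dominated.
-/

set_option autoImplicit false

namespace Pool.Agent.Results.MP_b6db87_lc.RapidNotDominated

open Pool.Agent.W868
open Pool.Agent.H635.RF

/-- There is a countable transitive model `N` of ZFC in which the statement (R) holds, that is, the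
Raisonnier filter of `2^ω ∩ L[a]` is rapid for every real `a`, and in which for some real `a` there
is no real that dominates the reals of `L[a]`. -/
theorem result : ∃ N : Set ZFSet.{0}, N.Countable ∧ IsZFC N ∧ StR N ∧
    ∃ a : ℕ → ℕ, fnc a ∈ N ∧ ∀ d : ℕ → ℕ, fnc d ∈ N →
      ∃ f : ℕ → ℕ, fnc f ∈ Lr N a ∧ ∀ n₀, ∃ n ≥ n₀, d n < f n := by
  obtain ⟨N, h1, h2, h3, h4⟩ := exists_model
  unfold StD at h4
  push Not at h4
  obtain ⟨a, h5, h6⟩ := h4
  exact ⟨N, h1, h2, h3, a, h5, h6⟩

end Pool.Agent.Results.MP_b6db87_lc.RapidNotDominated
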